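import Mathlib
import Pool.Agent.Helper669.HDefs
import Pool.Agent.Helper669.HTrans2
import Pool.Agent.Helper669.HForm

/-!
# A second-order spectrum that is not an `L(I)`-spectrum

The statement `S`, that every second-order spectrum is an `L(I)`-spectrum, is false. There is a
second-order sentence in the empty vocabulary whose spectrum differs from the spectrum of each
`L(I)`-sentence at the cardinality `ℶ_ (n + 1)` of the `n + 1`-st iterated power set of the set of
natural numbers, for some natural number `n`.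
-/

namespace Pool.Agent.Results.MP_d648bd_lc.HartigSpectra

open Cardinal FirstOrder Pool.Agent.Helper669.Hartig

universe u

theorem result : ¬ StatementS.{u} ∧ ∃ σ : SO Language.empty,
    ∀ (L : FirstOrder.Language.{0, 0}), Finite L.Symbols → ∀ φ : LI L, ∃ n : ℕ,
      ((ℶ_ ((n + 1 : ℕ) : Ordinal.{u}) : Cardinal.{u}) ∈ σ.spectrum ↔
        (ℶ_ ((n + 1 : ℕ) : Ordinal.{u}) : Cardinal.{u}) ∉ φ.spectrum) := by
  have key : ∀ (L : FirstOrder.Language.{0, 0}), Finite L.Symbols → ∀ φ : LI L, ∃ n : ℕ,
      ((ℶ_ ((n + 1 : ℕ) : Ordinal.{u}) : Cardinal.{u}) ∈ thetaF.spectrum ↔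
        (ℶ_ ((n + 1 : ℕ) : Ordinal.{u}) : Cardinal.{u}) ∉ φ.spectrum) := by
    intro L hL φ
    obtain ⟨idx, hidx⟩ := Countable.exists_injective_nat L.Symbols
    have hF : Finite (Σ l, L.Functions l) :=
      Finite.of_injective (Sum.inl : (Σ l, L.Functions l) → L.Symbols) Sum.inl_injective
    obtain ⟨fs, hfs⟩ : ∃ fs : List (Σ l, L.Functions l), ∀ f, f ∈ fs := by
      cases nonempty_fintype (Σ l, L.Functions l)
      exact ⟨Finset.univ.toList, fun f => by simp⟩
    obtain ⟨K, hK⟩ := exists_lb φ
    refine ⟨enc (full idx K φ fs), ?_⟩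
    constructor
    · rintro ⟨M, _, hne, hM, hr⟩ ⟨M', _, hne', hM', hr'⟩
      have h1 : Theta M := by
        obtain ⟨a⟩ := hne
        exact (rz_theta (fun _ => a) (fun _ _ _ => True)).1 (hr _ _)
      rw [theta_iff hM] at h1
      have h2 : Infinite M' := by
        rw [Cardinal.infinite_iff, hM']
        exact Cardinal.aleph0_le_beth _
      have h3 := good_of_structure hidx hK hr' fs
      obtain ⟨e⟩ := Cardinal.eq.1 (hM'.trans hM.symm)
      exact h1 (good_equiv e h3)
    · intro h
      obtain ⟨M, hM⟩ : ∃ M : Type u,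
          #M = ℶ_ ((enc (full idx K φ fs) + 1 : ℕ) : Ordinal.{u}) := ⟨_, Cardinal.mk_out _⟩
      have h2 : Infinite M := by
        rw [Cardinal.infinite_iff, hM]
        exact Cardinal.aleph0_le_beth _
      have h3 : Nonempty M := inferInstance
      refine ⟨M, Language.emptyStructure, h3, hM, fun v V => ?_⟩
      refine (@rz_theta M Language.emptyStructure v V).2 ((theta_iff hM).2 fun h4 => h ?_)
      obtain ⟨look, Int, hc, hs⟩ := h4
      obtain ⟨S, hS⟩ := structure_of_sat hc hfs hK hs
      exact ⟨M, S, h3, hM, hS⟩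
  refine ⟨fun hS => ?_, thetaF, key⟩
  obtain ⟨L, hL, φ, hφ⟩ := hS Language.empty inferInstance thetaF
  obtain ⟨n, hn⟩ := key L hL φ
  rw [hφ] at hn
  tauto

end Pool.Agent.Results.MP_d648bd_lc.HartigSpectra
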